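import Pool.Agent.MP_d20a68_co.Main

set_option autoImplicit false

namespace Pool.Agent.MP_d20a68_co.DenseOld

open Pool.Agent.MP_d20a68_co

/-- Dense regular graphs of even order are edge λ-choosable for all partitions λ of the degree `k`
whose parts are at most `c * k / log k`. -/
theorem result :
    ∀ ε : ℝ, 0 < ε → ∃ c : ℝ, 0 < c ∧ ∃ K : ℕ, ∀ k : ℕ, K ≤ k →
      ∀ (V : Type) [Fintype V] (G : SimpleGraph V),
        (∀ v : V, (G.neighborSet v).ncard = k) → Even (Fintype.card V) →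
        (Fintype.card V : ℝ) ≤ (2 - ε) * k →
        ∀ (q : ℕ) (p : Fin q → ℕ), (∀ i, (p i : ℝ) ≤ c * k / Real.log k) → (∑ i, p i) = k →
          ∀ (cl : ℕ → Fin q) (L : G.edgeSet → Finset ℕ),
            (∀ e i, p i ≤ ((L e).filter (fun x => cl x = i)).card) →
            ∃ f : G.edgeSet → ℕ, (∀ e, f e ∈ L e) ∧
              ∀ e₁ e₂ : G.edgeSet, e₁ ≠ e₂ →
                (∃ v : V, v ∈ e₁.1 ∧ v ∈ e₂.1) → f e₁ ≠ f e₂ := by
  intro ε hε
  obtain ⟨c, hc, K, h⟩ := dense_regular ε hε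
  refine ⟨c, hc, K, fun k hk V _ G hreg hev hn q p hp hsum cl L hL => ?_⟩
  rcases isEmpty_or_nonempty V with hV | hV
  · refine ⟨fun _ => 0, ?_, ?_⟩
    · rintro ⟨e, he⟩
      exact hV.elim e.out.1
    · rintro _ _ _ ⟨v, _⟩
      exact hV.elim v
  · refine of_colL G cl L _ (h k hk V G (fun v => ?_) hev hn q p hp hsum _ hV
      (sys_colL G p cl L hL))
    rw [← hreg v, dg, ← Set.ncard_coe_finset]
    congr 1
    ext w
    simp

end Pool.Agent.MP_d20a68_co.DenseOld
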