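import Pool.Agent.MP_d20a68_co.PBasic

/-! From fingerprints to all sets. -/

set_option autoImplicit false
set_option linter.unusedSectionVars false
set_option linter.unusedVariables false
open Finset
open scoped Classical

namespace Pool.Agent.MP_d20a68_co.Poly

/-- A derandomised random subset. -/
lemma sample_fp {U : Type} (p γ : ℝ) (hp0 : 0 ≤ p) (hp1 : p ≤ 1) (c : U → ℝ) (N : U → Finset U)
    (S : Finset U) : ∀ X : Finset U, ∃ φ ⊆ S,
      ∑ z ∈ φ, c z + γ * (X.filter fun z => ∀ w ∈ N z, w ∉ φ).card ≤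
        p * ∑ z ∈ S, c z + γ * ∑ z ∈ X, (1 - p) ^ (S.filter fun w => w ∈ N z).card := by
  induction S using Finset.induction_on with
  | empty =>
    intro X
    refine ⟨∅, subset_rfl, ?_⟩
    simp
  | insert a S ha ih =>
    intro X
    obtain ⟨φ₁, a1, a2⟩ := ih (X.filter fun z => a ∉ N z)
    obtain ⟨φ₂, b1, b2⟩ := ih X
    have e1 : (X.filter fun z => ∀ w ∈ N z, w ∉ insert a φ₁) =
        (X.filter fun z => a ∉ N z).filter fun z => ∀ w ∈ N z, w ∉ φ₁ := by
      ext z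
      simp only [mem_filter, mem_insert, not_or]
      exact ⟨fun h => ⟨⟨h.1, fun h' => (h.2 a h').1 rfl⟩, fun w hw => (h.2 w hw).2⟩,
        fun h => ⟨h.1.1, fun w hw => ⟨fun e => h.1.2 (e ▸ hw), h.2 w hw⟩⟩⟩
    have e2 : ∑ z ∈ X, (1 - p) ^ ((insert a S).filter fun w => w ∈ N z).card =
        p * ∑ z ∈ X.filter (fun z => a ∉ N z), (1 - p) ^ (S.filter fun w => w ∈ N z).card +
          (1 - p) * ∑ z ∈ X, (1 - p) ^ (S.filter fun w => w ∈ N z).card := by
      rw [sum_filter, mul_sum, mul_sum, ← sum_add_distrib]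
      refine sum_congr rfl fun z _ => ?_
      rw [filter_insert]
      by_cases h : a ∈ N z
      · rw [if_pos h, if_neg (not_not.2 h), card_insert_of_notMem fun h' => ha (mem_filter.1 h').1,
          pow_succ]
        ring
      · rw [if_neg h, if_pos h]
        ring
    rw [e2, sum_insert ha]
    by_contra hn
    have c1 := not_le.1 fun h => hn ⟨insert a φ₁, insert_subset_insert a a1, h⟩
    have c2 := not_le.1 fun h => hn ⟨φ₂, b1.trans (subset_insert _ _), h⟩
    rw [e1, sum_insert fun h => ha (a1 h)] at c1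
    rcases hp0.eq_or_lt with rfl | hp
    · simp only [zero_mul, zero_add, sub_zero, one_mul] at c2 b2
      linarith
    · have d1 := mul_lt_mul_of_pos_left (c1.trans_le ((add_assoc _ _ _).trans_le
        (add_le_add_right a2 (c a)))) hp
      have d2 := mul_le_mul_of_nonneg_left (c2.le.trans b2) (sub_nonneg.2 hp1)
      linarith

lemma sample_fp' {U : Type} (p γ : ℝ) (hp0 : 0 ≤ p) (hp1 : p ≤ 1) (c : U → ℝ) (N : U → Finset U)
    (S : Finset U) (hN : ∀ z, N z ⊆ S) (X : Finset U) : ∃ φ ⊆ S, ∃ u : Finset U,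
      (∀ z, z ∈ u ↔ z ∈ X ∧ ∀ w ∈ N z, w ∉ φ) ∧ ∑ z ∈ φ, c z + γ * u.card ≤
        p * ∑ z ∈ S, c z + γ * ∑ z ∈ X, (1 - p) ^ (N z).card := by
  obtain ⟨φ, a1, a2⟩ := sample_fp p γ hp0 hp1 c N S X
  refine ⟨φ, a1, X.filter fun z => ∀ w ∈ N z, w ∉ φ, fun z => mem_filter, a2.trans_eq ?_⟩
  have e : ∀ z, (S.filter fun w => w ∈ N z) = N z := fun z => by
    ext w
    rw [mem_filter]
    exact ⟨And.right, fun h => ⟨hN z h, h⟩⟩
  simp only [e]

variable {V : Type} [Fintype V] {G : SimpleGraph V} {D L : ℕ}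

lemma all_fp (σ : V → Bool) (θ K : ℝ) (hθ : 0 ≤ θ)
    (h : ∀ φ, Conn (Rel G) φ → |hs G σ (hat G φ)| ≤ θ * (bs G σ (hat G φ)).card + K * φ.card)
    (φ : Finset (V × Bool)) :
    |hs G σ (hat G φ)| ≤ θ * (bs G σ (hat G φ)).card + K * φ.card := by
  refine conn_induction (Rel G)
    (fun φ => |hs G σ (hat G φ)| ≤ θ * (bs G σ (hat G φ)).card + K * φ.card) ?_ h ?_ φ
  · have : hat G ∅ = ∅ := by ext z; simp
    simp only [this, hs, filter_empty, sum_empty, abs_zero, card_empty, Nat.cast_zero, mul_zero,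
      add_zero]
    positivity
  intro φ ψ χ h1 h2 _ _ h3 h4 h5
  have far : ∀ z ∈ hat G φ, ∀ w ∈ hat G ψ, ¬ Adj0 G z.1 w.1 := fun z hz w hw hzw => by
    obtain ⟨x, x1, x2⟩ := mem_hat.1 hz
    obtain ⟨y, y1, y2⟩ := mem_hat.1 hw
    exact h3 x x1 y y1 ⟨w.1, ⟨z.1, Or.inr x2.1.symm, hzw⟩, Or.inr y2.1⟩
  have hd : Disjoint (hat G φ) (hat G ψ) := disjoint_left.2 fun z a b => far z a z b (Adj0.refl _)
  have hu : hat G χ = hat G φ ∪ hat G ψ := by
    ext z
    simp only [mem_hat, mem_union, h1]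
    exact ⟨fun ⟨w, a, b⟩ => a.imp (fun a => ⟨w, a, b⟩) fun a => ⟨w, a, b⟩,
      fun h => h.elim (fun ⟨w, a, b⟩ => ⟨w, Or.inl a, b⟩) fun ⟨w, a, b⟩ => ⟨w, Or.inr a, b⟩⟩
  have e1 : hs G σ (hat G χ) = hs G σ (hat G φ) + hs G σ (hat G ψ) := by
    unfold hs
    rw [hu, filter_union, sum_union (disjoint_filter_filter hd)]
  have e2 : (bs G σ (hat G φ)).card + (bs G σ (hat G ψ)).card ≤ (bs G σ (hat G χ)).card := by
    rw [← card_union_of_disjoint (disjoint_left.2 fun e a b =>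
      disjoint_left.1 hd (mem_bs.1 a).1.1 (mem_bs.1 b).1.1)]
    refine card_le_card fun e he => ?_
    rw [hu, mem_bs, mem_union, mem_union]
    rcases mem_union.1 he with he | he <;> obtain ⟨⟨a, b, c⟩, d⟩ := mem_bs.1 he
    · exact ⟨⟨Or.inl a, fun h => h.elim b fun h => far _ a _ h (Or.inr c.1), c⟩, d⟩
    · exact ⟨⟨Or.inr a, fun h => h.elim (fun h => far _ h _ a (Or.inr c.1.symm)) b, c⟩, d⟩
  have e3 : χ.card = φ.card + ψ.card := by
    rw [← card_union_of_disjoint h2]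
    congr 1
    ext z
    rw [h1, mem_union]
  have e4 : ((bs G σ (hat G φ)).card : ℝ) + (bs G σ (hat G ψ)).card ≤ (bs G σ (hat G χ)).card := by
    exact_mod_cast e2
  have e5 := mul_le_mul_of_nonneg_left e4 hθ
  have e6 := abs_add_le (hs G σ (hat G φ)) (hs G σ (hat G ψ))
  rw [e1, e3]
  push_cast
  linarith

/-- The number of selected neighbours. -/
lemma sel_nb_fp (σ : V → Bool) (z : V × Bool) :
    sg z.2 * hv G σ z.1 =
      dg G z.1 - 2 * (univ.filter fun w : V × Bool => AdjT G z w ∧ σ w.1 = w.2).card := by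
  have e1 : (univ.filter fun w : V × Bool => AdjT G z w ∧ σ w.1 = w.2).card =
      ((nb G z.1).filter fun u => ¬ σ u = z.2).card := by
    refine card_nbij' (fun w => w.1) (fun u => (u, σ u)) ?_ ?_ ?_ ?_
    · intro w hw
      obtain ⟨⟨a, b⟩, c⟩ := (mem_filter.1 (mem_coe.1 hw)).2
      exact mem_coe.2 (mem_filter.2 ⟨mem_nb.2 a, fun h => b (h.symm.trans c)⟩)
    · intro u hu
      obtain ⟨a, b⟩ := mem_filter.1 (mem_coe.1 hu)
      exact mem_coe.2 (mem_filter.2 ⟨mem_univ _, ⟨mem_nb.1 a, fun h => b h.symm⟩, rfl⟩)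
    · intro w hw
      have c := (mem_filter.1 (mem_coe.1 hw)).2.2
      simp only [c]
    · intro u _
      rfl
  rw [e1, hv, dg, ← card_filter_add_card_filter_not (s := nb G z.1) fun u => σ u = z.2,
    ← sum_filter_add_sum_filter_not (nb G z.1) fun u => σ u = z.2,
    sum_congr rfl fun u hu => congrArg sg (mem_filter.1 hu).2,
    sum_congr rfl fun u hu => sg_of_ne (mem_filter.1 hu).2]
  simp only [sum_const, nsmul_eq_mul]
  have := sg_mul_self z.2
  push_cast
  linear_combination (((nb G z.1).filter fun u => σ u = z.2).card -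
    (((nb G z.1).filter fun u => ¬ σ u = z.2).card : ℝ)) * this

lemma hs_close_fp (σ : V → Bool) (η : ℝ) (hη : ∀ v, |hv G σ v| ≤ η) (S T : Finset (V × Bool))
    (hS : ∀ z ∈ S, σ z.1 = z.2) :
    |hs G σ S| ≤ |hs G σ T| + η * ((S \ T).card + ((T.filter fun z => σ z.1 = z.2) \ S).card) := by
  set T' := T.filter fun z => σ z.1 = z.2 with hT'
  have e0 : S \ T' = S \ T := by
    ext z
    simp only [mem_sdiff, hT', mem_filter]
    exact ⟨fun h => ⟨h.1, fun h' => h.2 ⟨h', hS z h.1⟩⟩, fun h => ⟨h.1, fun h' => h.2 h'.1⟩⟩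
  have e1 : hs G σ S - hs G σ T = ∑ z ∈ S \ T, hv G σ z.1 - ∑ z ∈ T' \ S, hv G σ z.1 := by
    unfold hs
    rw [filter_true_of_mem hS, ← hT', ← e0, sum_sdiff_sub_sum_sdiff]
  have e2 : ∀ X : Finset (V × Bool), |∑ z ∈ X, hv G σ z.1| ≤ η * X.card := fun X => by
    refine (abs_sum_le_sum_abs _ _).trans ((sum_le_card_nsmul _ _ η fun z _ => hη _).trans_eq ?_)
    rw [nsmul_eq_mul, mul_comm]
  have e3 := abs_le.1 (e2 (S \ T))
  have e4 := abs_le.1 (e2 (T' \ S))
  have e5 := le_abs_self (hs G σ T)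
  have e6 := neg_abs_le (hs G σ T)
  rw [abs_le]
  constructor <;> linarith [e3.1, e3.2, e4.1, e4.2]

lemma bs_close_fp (hD : ∀ v, dg G v = D) (σ : V → Bool) (S T : Finset (V × Bool)) :
    (bs G σ T).card ≤ (bs G σ S).card +
      D * ((S \ T).card + ((T.filter fun z => σ z.1 = z.2) \ S).card) := by
  set T' := T.filter fun z => σ z.1 = z.2 with hT'
  have e1 : bs G σ T ⊆ bs G σ S ∪
      (((S \ T).biUnion fun w => (univ.filter fun z => AdjT G w z).image fun z => (z, w)) ∪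
        ((T' \ S).biUnion fun z => (univ.filter fun w => AdjT G z w).image fun w => (z, w))) := by
    intro e he
    obtain ⟨⟨a, b, c⟩, d⟩ := mem_bs.1 he
    by_cases h1 : e.1 ∈ S
    · by_cases h2 : e.2 ∈ S
      · exact mem_union_right _ (mem_union_left _ (mem_biUnion.2 ⟨e.2, mem_sdiff.2 ⟨h2, b⟩,
          mem_image.2 ⟨e.1, mem_filter.2 ⟨mem_univ _, c.symm⟩, rfl⟩⟩))
      · exact mem_union_left _ (mem_bs.2 ⟨⟨h1, h2, c⟩, d⟩)
    · exact mem_union_right _ (mem_union_right _ (mem_biUnion.2 ⟨e.1,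
        mem_sdiff.2 ⟨mem_filter.2 ⟨a, d.1⟩, h1⟩,
        mem_image.2 ⟨e.2, mem_filter.2 ⟨mem_univ _, c⟩, rfl⟩⟩))
  refine (card_le_card e1).trans ((card_union_le _ _).trans (Nat.add_le_add_left
    ((card_union_le _ _).trans ?_) _))
  rw [mul_add, mul_comm D, mul_comm D]
  exact Nat.add_le_add
    (card_biUnion_le_card_mul _ _ D fun w _ => card_image_le.trans ((card_adjT w).trans (hD _)).le)
    (card_biUnion_le_card_mul _ _ D fun w _ => card_image_le.trans ((card_adjT w).trans (hD _)).le)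

theorem finger : FingerStmt := by
  intro V _ G D L hP hD σ h1 h2 S hS
  have hD0 : (0 : ℝ) < D := by exact_mod_cast hP.pos
  have hL1 : (1 : ℝ) ≤ L := by exact_mod_cast hP.one
  have hbig : (10 : ℝ) ^ 8 * L ^ 4 ≤ D := by exact_mod_cast hP.big
  have hL4 : (L : ℝ) ≤ L ^ 4 := le_self_pow₀ hL1 (by norm_num)
  set θ : ℝ := 1 / (13 * L) with hθ
  have hθ0 : 0 < θ := by positivity
  have hθL : θ * L = 1 / 13 := by rw [hθ]; field_simp
  have hθ1 : θ ≤ 1 / 13 := by nlinarith
  set K : ℝ := 3 * 10 ^ 7 * (L : ℝ) ^ 3 with hK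
  have h3 := all_fp (G := G) σ θ (K * D) hθ0.le fun φ hφ => by
    refine (h2 φ hφ).trans_eq ?_
    rw [hθ]; ring
  have h4 : ∀ v, |hv G σ v| ≤ θ * D := fun v => (h1 v).trans_eq (by rw [hθ]; ring)
  set b : V × Bool → ℕ := fun z => ((bs G σ S).filter fun e => e.1 = z).card with hb
  have hbs : ∑ z ∈ S, b z = (bs G σ S).card :=
    (card_eq_sum_card_fiberwise fun e he => mem_coe.2 (mem_bs.1 (mem_coe.1 he)).1.1).symm
  set N : V × Bool → Finset (V × Bool) := fun z => S.filter fun w => AdjT G z w with hN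
  set X := S.filter fun z => D ≤ 4 * (N z).card with hX
  have hp1 : 4 * (L : ℝ) / D ≤ 1 := by rw [div_le_one hD0]; linarith
  obtain ⟨φ, a1, u, hu, a3⟩ := sample_fp' (4 * L / D) (2 * θ * D) (by positivity) hp1
    (fun z => 2 * θ * D * b z + K * D) N S (fun z => filter_subset _ _) X
  set T := hat G φ with hT
  -- wrongly covered vertices
  have c1 : ((T.filter fun z => σ z.1 = z.2) \ S).card ≤ ∑ z ∈ φ, b z := by
    calc _ ≤ (φ.biUnion fun z => ((bs G σ S).filter fun e => e.1 = z).image Prod.snd).card :=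
          card_le_card fun w hw => by
            obtain ⟨d1, d2⟩ := mem_sdiff.1 hw
            obtain ⟨d3, d4⟩ := mem_filter.1 d1
            obtain ⟨z, d5, d6⟩ := mem_hat.1 d3
            exact mem_biUnion.2 ⟨z, d5, mem_image.2 ⟨(z, w), mem_filter.2
              ⟨mem_bs.2 ⟨⟨a1 d5, d2, d6.symm⟩, hS z (a1 d5), d4⟩, rfl⟩, rfl⟩⟩
      _ ≤ _ := card_biUnion_le.trans (sum_le_sum fun z _ => card_image_le)
  -- vertices with few neighbours inside
  set Y := S.filter fun z => ¬ D ≤ 4 * (N z).card with hY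
  have c2 : (D : ℝ) * Y.card ≤ 8 * (bs G σ S).card := by
    have d1 : ∀ z ∈ Y, (D : ℝ) ≤ 8 * b z := fun z hz => by
      obtain ⟨d2, d3⟩ := mem_filter.1 hz
      have d4 := sel_nb_fp (G := G) σ z
      have d5 : (univ.filter fun w : V × Bool => AdjT G z w ∧ σ w.1 = w.2).card ≤
          (N z).card + b z := by
        refine le_trans (card_le_card fun w hw => ?_) ((card_union_le (N z)
          (((bs G σ S).filter fun e => e.1 = z).image Prod.snd)).trans
          (Nat.add_le_add_left card_image_le _))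
        obtain ⟨d6, d7⟩ := (mem_filter.1 hw).2
        by_cases h : w ∈ S
        · exact mem_union_left _ (mem_filter.2 ⟨h, d6⟩)
        · exact mem_union_right _ (mem_image.2 ⟨(z, w), mem_filter.2
            ⟨mem_bs.2 ⟨⟨d2, h, d6⟩, hS z d2, d7⟩, rfl⟩, rfl⟩)
      have d6 : ((univ.filter fun w : V × Bool => AdjT G z w ∧ σ w.1 = w.2).card : ℝ) ≤
          (N z).card + b z := by exact_mod_cast d5
      have d7 : (4 : ℝ) * (N z).card ≤ D := by exact_mod_cast (not_le.1 d3).le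
      have d8 : sg z.2 * hv G σ z.1 ≤ θ * D := by
        refine (le_abs_self _).trans ?_
        rw [abs_mul, abs_sg, one_mul]
        exact h4 _
      have d9 : θ * D ≤ 1 / 13 * D := mul_le_mul_of_nonneg_right hθ1 hD0.le
      rw [hD] at d4
      linarith
    calc (D : ℝ) * Y.card = ∑ z ∈ Y, (D : ℝ) := by rw [sum_const, nsmul_eq_mul, mul_comm]
      _ ≤ ∑ z ∈ Y, (8 : ℝ) * b z := sum_le_sum d1
      _ ≤ ∑ z ∈ S, (8 : ℝ) * b z :=
          sum_le_sum_of_subset_of_nonneg (filter_subset _ _) fun _ _ _ => by positivity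
      _ = _ := by rw [← mul_sum, ← hbs]; push_cast; rfl
  have c3 : (S \ T).card ≤ u.card + Y.card := by
    refine le_trans (card_le_card fun z hz => ?_) (card_union_le _ _)
    obtain ⟨d1, d2⟩ := mem_sdiff.1 hz
    by_cases h : D ≤ 4 * (N z).card
    · exact mem_union_left _ ((hu z).2 ⟨mem_filter.2 ⟨d1, h⟩,
        fun w hw hw' => d2 (mem_hat.2 ⟨w, hw', (mem_filter.1 hw).2⟩)⟩)
    · exact mem_union_right _ (mem_filter.2 ⟨d1, h⟩)
  -- the expectation
  have c4 : (D : ℝ) * ∑ z ∈ X, (1 - 4 * (L : ℝ) / D) ^ (N z).card ≤ S.card := by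
    have d1 : ∀ z ∈ X, (D : ℝ) * (1 - 4 * (L : ℝ) / D) ^ (N z).card ≤ 1 :=
      fun z hz => by
        have d3 : (D : ℝ) ≤ 4 * (N z).card := by exact_mod_cast (mem_filter.1 hz).2
        have d4 : (1 - 4 * (L : ℝ) / D) ^ (N z).card ≤ Real.exp (-(4 * L / D)) ^ (N z).card :=
          pow_le_pow_left₀ (sub_nonneg.2 hp1) (by linarith [Real.add_one_le_exp (-(4 * L / D))]) _
        have d5 : Real.exp (-(4 * L / D)) ^ (N z).card ≤ Real.exp (-L) := by
          rw [← Real.exp_nat_mul]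
          refine Real.exp_le_exp.2 ?_
          have : (L : ℝ) ≤ (N z).card * (4 * L / D) := by
            rw [← mul_div_assoc, le_div_iff₀ hD0]
            nlinarith
          linarith
        have d6 : (D : ℝ) ≤ Real.exp L := by
          have d7 : (D : ℝ) ≤ 2 ^ L := by exact_mod_cast hP.pow
          refine d7.trans ?_
          rw [← mul_one (L : ℝ), Real.exp_nat_mul]
          exact pow_le_pow_left₀ (by norm_num) (by linarith [Real.add_one_le_exp (1 : ℝ)]) _
        calc _ ≤ Real.exp L * Real.exp (-L) :=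
              mul_le_mul d6 (d4.trans d5) (pow_nonneg (sub_nonneg.2 hp1) _) (Real.exp_pos _).le
          _ = 1 := by rw [← Real.exp_add, add_neg_cancel, Real.exp_zero]
    rw [mul_sum]
    refine (sum_le_card_nsmul _ _ 1 d1).trans ?_
    rw [nsmul_eq_mul, mul_one]
    exact_mod_cast card_le_card (filter_subset _ _)
  have c5 : ∑ z ∈ φ, (2 * θ * D * b z + K * D) =
      2 * θ * D * (∑ z ∈ φ, b z : ℕ) + K * D * φ.card := by
    rw [sum_add_distrib, ← mul_sum, sum_const, nsmul_eq_mul]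
    push_cast
    ring
  have c6 : 4 * (L : ℝ) / D * ∑ z ∈ S, (2 * θ * D * b z + K * D) =
      8 * (θ * L) * (bs G σ S).card + 4 * K * L * S.card := by
    rw [sum_add_distrib, ← mul_sum, sum_const, nsmul_eq_mul, ← hbs]
    push_cast
    field_simp
    ring
  rw [c5, c6, hθL] at a3
  have c7 := hs_close_fp σ _ h4 S T hS
  have c8 : ((bs G σ T).card : ℝ) ≤ (bs G σ S).card +
      D * ((S \ T).card + ((T.filter fun z => σ z.1 = z.2) \ S).card) := by
    exact_mod_cast bs_close_fp hD σ S T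
  have c9 := h3 φ
  rw [← hT] at c9
  have c10 : (((S \ T).card : ℝ) + ((T.filter fun z => σ z.1 = z.2) \ S).card) ≤
      u.card + Y.card + (∑ z ∈ φ, b z : ℕ) := by exact_mod_cast Nat.add_le_add c3 c1
  set m : ℝ := ((S \ T).card : ℝ) + ((T.filter fun z => σ z.1 = z.2) \ S).card with hm
  have c11 := mul_le_mul_of_nonneg_left c8 hθ0.le
  have c12 := mul_le_mul_of_nonneg_left c10 (show 0 ≤ 2 * θ * D by positivity)
  have c13 := mul_le_mul_of_nonneg_left c2 (show 0 ≤ 2 * θ by positivity)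
  have c14 := mul_le_mul_of_nonneg_left c4 (show 0 ≤ 2 * θ by positivity)
  have c15 : θ * (bs G σ S).card ≤ 1 / 13 * (bs G σ S).card :=
    mul_le_mul_of_nonneg_right hθ1 (Nat.cast_nonneg _)
  have c16 : θ * S.card ≤ 1 / 13 * S.card := mul_le_mul_of_nonneg_right hθ1 (Nat.cast_nonneg _)
  have c17 : (S.card : ℝ) ≤ (L : ℝ) ^ 4 * S.card :=
    le_mul_of_one_le_left (Nat.cast_nonneg _) (hL1.trans hL4)
  have c18 : 4 * K * L * S.card = 12 * 10 ^ 7 * ((L : ℝ) ^ 4 * S.card) := by rw [hK]; ring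
  have c19 : (0 : ℝ) ≤ (bs G σ S).card := Nat.cast_nonneg _
  have c20 : (0 : ℝ) ≤ S.card := Nat.cast_nonneg _
  rw [c18] at a3
  linarith

end Pool.Agent.MP_d20a68_co.Poly
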