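import Pool.Agent.MP_d20a68_co.PBasic

/-! The basic identity for the signed degrees and the bounded differences. -/

set_option autoImplicit false
set_option linter.unusedSectionVars false
set_option linter.unusedVariables false
set_option linter.unnecessarySeqFocus false
open Finset
open scoped Classical

namespace Pool.Agent.MP_d20a68_co.Poly

variable {V : Type} [Fintype V] {G : SimpleGraph V} {D : ℕ}

lemma hv_eq_p7 (hD : ∀ v, dg G v = D) (σ : V → Bool) (z : V × Bool) (hz : σ z.1 = z.2) :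
    hv G σ z.1 = D * sg z.2 -
      2 * ∑ w : V × Bool, if AdjT G z w ∧ σ w.1 = w.2 then sg z.2 else 0 := by
  have h1 : (D : ℝ) * sg z.2 = ∑ u : V, if G.Adj z.1 u then sg z.2 else 0 := by
    rw [← sum_filter, sum_const, nsmul_eq_mul, ← hD z.1]
    rfl
  have h2 : hv G σ z.1 = ∑ u : V, if G.Adj z.1 u then sg (σ u) else 0 := by
    rw [← sum_filter]
    rfl
  rw [h1, h2, Fintype.sum_prod_type, mul_sum, ← sum_sub_distrib]
  refine sum_congr rfl fun u _ => ?_
  rw [Fintype.sum_bool]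
  unfold AdjT
  by_cases ha : G.Adj z.1 u
  · obtain ⟨v, s⟩ := z
    cases s <;> cases hu : σ u <;> simp [ha, sg] <;> norm_num
  · simp [ha]

theorem hsId : HsStmt := by
  intro V _ G D hD σ T
  unfold hs
  rw [sum_congr rfl fun z hz => hv_eq_p7 hD σ z (mem_filter.1 hz).2, sum_sub_distrib, ← mul_sum,
    ← mul_sum]
  congr 2
  let f : (V × Bool) × (V × Bool) → ℝ := fun e =>
    if e.1 ∈ T ∧ e.2 ∈ T ∧ AdjT G e.1 e.2 ∧ σ e.1.1 = e.1.2 ∧ σ e.2.1 = e.2.2 then sg e.1.2 else 0
  have hf : ∑ e, f e = 0 := by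
    have h1 : ∑ e, f (Prod.swap e) = ∑ e, f e := Equiv.sum_comp (Equiv.prodComm _ _) f
    have h2 : ∀ e, f (Prod.swap e) = - f e := by
      intro e
      simp only [f, Prod.fst_swap, Prod.snd_swap]
      by_cases h : e.1 ∈ T ∧ e.2 ∈ T ∧ AdjT G e.1 e.2 ∧ σ e.1.1 = e.1.2 ∧ σ e.2.1 = e.2.2
      · rw [if_pos h, if_pos ⟨h.2.1, h.1, h.2.2.1.symm, h.2.2.2.2, h.2.2.2.1⟩,
          sg_of_ne h.2.2.1.2.symm]
      · rw [if_neg h, if_neg fun h' => h ⟨h'.2.1, h'.1, h'.2.2.1.symm, h'.2.2.2.2, h'.2.2.2.1⟩,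
          neg_zero]
    simp only [h2, sum_neg_distrib] at h1
    linarith
  have h3 : ∑ e ∈ bs G σ T, sg e.1.2 = ∑ e, if e ∈ bs G σ T then sg e.1.2 else 0 := by
    rw [← sum_filter]
    congr 1
    ext e
    simp only [mem_filter, mem_univ, true_and]
  have h4 : (∑ z ∈ T.filter (fun z => σ z.1 = z.2),
      ∑ w : V × Bool, if AdjT G z w ∧ σ w.1 = w.2 then sg z.2 else 0) =
      ∑ z, if z ∈ T ∧ σ z.1 = z.2 then
        ∑ w : V × Bool, (if AdjT G z w ∧ σ w.1 = w.2 then sg z.2 else 0) else 0 := by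
    rw [← sum_filter]
    congr 1
    ext e
    simp only [mem_filter, mem_univ, true_and]
  have h5 : (∑ e, if e ∈ bs G σ T then sg e.1.2 else 0) =
      ∑ e, (f e + if e ∈ bs G σ T then sg e.1.2 else 0) := by
    rw [sum_add_distrib, hf, zero_add]
  rw [h4, h3, h5,
    Fintype.sum_prod_type (f := fun e => f e + if e ∈ bs G σ T then sg e.1.2 else 0)]
  refine sum_congr rfl fun z _ => ?_
  by_cases hz : z ∈ T ∧ σ z.1 = z.2
  · rw [if_pos hz]
    refine sum_congr rfl fun w _ => ?_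
    simp only [f, mem_bs]
    by_cases h1 : AdjT G z w <;> by_cases h2 : σ w.1 = w.2 <;> by_cases h5 : w ∈ T <;>
      simp [h1, h2, h5, hz.1, hz.2]
  · rw [if_neg hz]
    refine (sum_eq_zero fun w _ => ?_).symm
    simp only [f, mem_bs]
    rw [if_neg fun h => hz ⟨h.1, h.2.2.2.1⟩, if_neg fun h => hz ⟨h.1.1, h.2.1⟩, add_zero]

/-- The number of leaving edges at a lift. -/
noncomputable def gamP7 (G : SimpleGraph V) (T : Finset (V × Bool)) (z : V × Bool) : ℝ :=
  ∑ e ∈ bd G T, ((if e.1 = z then 1 else 0) + (if e.2 = z then 1 else 0))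

lemma gam_nonneg_p7 (T : Finset (V × Bool)) (z : V × Bool) : 0 ≤ gamP7 G T z :=
  sum_nonneg fun e _ => by split_ifs <;> norm_num

lemma gam_le_p7 (hD : ∀ v, dg G v = D) (T : Finset (V × Bool)) (z : V × Bool) :
    gamP7 G T z ≤ D := by
  unfold gamP7
  rw [sum_add_distrib, sum_boole, sum_boole, ← hD z.1, ← card_adjT z]
  by_cases hz : z ∈ T
  · have h1 : (bd G T).filter (fun e => e.2 = z) = ∅ :=
      filter_eq_empty_iff.2 fun e he h => (mem_bd.1 he).2.1 (h ▸ hz)
    rw [h1, card_empty, Nat.cast_zero, add_zero, Nat.cast_le]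
    refine card_le_card_of_injOn (fun e => e.2) (fun e he => ?_) fun e he e' he' h => ?_
    · obtain ⟨a, b⟩ := mem_filter.1 (mem_coe.1 he)
      exact mem_coe.2 (mem_filter.2 ⟨mem_univ _, b ▸ (mem_bd.1 a).2.2⟩)
    · exact Prod.ext ((mem_filter.1 (mem_coe.1 he)).2.trans
        (mem_filter.1 (mem_coe.1 he')).2.symm) h
  · have h1 : (bd G T).filter (fun e => e.1 = z) = ∅ :=
      filter_eq_empty_iff.2 fun e he h => hz (h ▸ (mem_bd.1 he).1)
    rw [h1, card_empty, Nat.cast_zero, zero_add, Nat.cast_le]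
    refine card_le_card_of_injOn (fun e => e.1) (fun e he => ?_) fun e he e' he' h => ?_
    · obtain ⟨a, b⟩ := mem_filter.1 (mem_coe.1 he)
      exact mem_coe.2 (mem_filter.2 ⟨mem_univ _, b ▸ (mem_bd.1 a).2.2.symm⟩)
    · exact Prod.ext h ((mem_filter.1 (mem_coe.1 he)).2.trans
        (mem_filter.1 (mem_coe.1 he')).2.symm)

lemma sum_gam_p7 (T : Finset (V × Bool)) : ∑ z, gamP7 G T z = 2 * (bd G T).card := by
  unfold gamP7
  rw [sum_comm, sum_congr rfl (g := fun _ => (2 : ℝ)) fun e _ => ?_, sum_const, nsmul_eq_mul,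
    mul_comm]
  rw [sum_add_distrib]
  simp only [sum_ite_eq, mem_univ, if_true]
  norm_num

/-- The number of leaving edges at a vertex. -/
noncomputable def betP7 (G : SimpleGraph V) (T : Finset (V × Bool)) (v : V) : ℝ :=
  gamP7 G T (v, true) + gamP7 G T (v, false)

lemma sum_bet_p7 (T : Finset (V × Bool)) : ∑ v, betP7 G T v = 2 * (bd G T).card := by
  rw [← sum_gam_p7, Fintype.sum_prod_type]
  exact sum_congr rfl fun v _ => by rw [Fintype.sum_bool]; rfl

/-- The number of ends of an edge over a vertex. -/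
noncomputable def indP7 (e : (V × Bool) × (V × Bool)) (v : V) : ℝ :=
  ((if e.1 = (v, true) then 1 else 0) + (if e.2 = (v, true) then 1 else 0)) +
    ((if e.1 = (v, false) then 1 else 0) + (if e.2 = (v, false) then 1 else 0))

lemma ind_nonneg_p7 (e : (V × Bool) × (V × Bool)) (v : V) : 0 ≤ indP7 e v := by
  unfold indP7; split_ifs <;> norm_num

lemma one_le_ind_p7 (e : (V × Bool) × (V × Bool)) (v : V) (h : e.1.1 = v ∨ e.2.1 = v) :
    1 ≤ indP7 e v := by
  obtain ⟨⟨a, s⟩, ⟨b, t⟩⟩ := e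
  unfold indP7
  rcases h with h | h <;> simp only at h <;> subst h <;> cases s <;> cases t <;> simp <;>
    split_ifs <;> norm_num

lemma bet_eq_p7 (T : Finset (V × Bool)) (v : V) : betP7 G T v = ∑ e ∈ bd G T, indP7 e v := by
  unfold betP7 gamP7 indP7
  rw [← sum_add_distrib]

lemma sel_sub_p7 (T : Finset (V × Bool)) (σ σ' : V → Bool) :
    ∑ z ∈ T.filter (fun z => σ z.1 = z.2), sg z.2 - ∑ z ∈ T.filter (fun z => σ' z.1 = z.2), sg z.2 =
      ∑ v, (wt T v : ℝ) * ((sg (σ v) - sg (σ' v)) / 2) := by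
  have h : ∀ τ : V → Bool, ∑ z ∈ T.filter (fun z => τ z.1 = z.2), sg z.2 =
      ∑ z : V × Bool, if z ∈ T ∧ τ z.1 = z.2 then sg z.2 else 0 := by
    intro τ
    rw [← sum_filter]
    congr 1
    ext e
    simp only [mem_filter, mem_univ, true_and]
  rw [h, h, ← sum_sub_distrib, Fintype.sum_prod_type]
  refine sum_congr rfl fun v _ => ?_
  rw [Fintype.sum_bool]
  unfold wt
  by_cases h1 : (v, true) ∈ T <;> by_cases h2 : (v, false) ∈ T <;> cases h3 : σ v <;>
    cases h4 : σ' v <;> simp [h1, h2, sg] <;> norm_num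

lemma sel_lip_p7 {π : V → V} (hπ : ∀ u, π (π u) = u) (T : Finset (V × Bool)) (i : V)
    (ε ε' : V → Bool) (h : ∀ v, v ≠ i → v ≠ π i → sig π ε v = sig π ε' v) :
    |∑ v, (wt T v : ℝ) * ((sg (sig π ε v) - sg (sig π ε' v)) / 2)| ≤
      2 * (if i ∈ sepS π (wt T) then 1 else 0) := by
  have ha : |(sg (sig π ε i) - sg (sig π ε' i)) / 2| ≤ 1 := by
    cases sig π ε i <;> cases sig π ε' i <;> simp [sg] <;> norm_num
  have hw : ∀ v, (0 : ℝ) ≤ wt T v ∧ (wt T v : ℝ) ≤ 2 := fun v =>
    ⟨Nat.cast_nonneg _, by exact_mod_cast wt_le T v⟩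
  by_cases hi : π i = i
  · rw [sum_eq_single i (fun v _ hv => by rw [h v hv (by rwa [hi]), sub_self, zero_div, mul_zero])
      (fun h => absurd (mem_univ _) h), abs_mul, abs_of_nonneg (hw i).1]
    split_ifs with hs
    · nlinarith [hw i, abs_nonneg ((sg (sig π ε i) - sg (sig π ε' i)) / 2)]
    · have : wt T i = 0 := by
        by_contra hn
        exact hs (mem_sepS.2 (Or.inr ⟨hi, hn⟩))
      rw [this]; simp
  · rw [← sum_subset (subset_univ {i, π i}) (fun v _ hv => by
      rw [mem_insert, mem_singleton, not_or] at hv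
      rw [h v hv.1 hv.2, sub_self, zero_div, mul_zero]), sum_pair (Ne.symm hi), sig_pi hπ ε hi,
      sig_pi hπ ε' hi, sg_not, sg_not]
    have he : (wt T i : ℝ) * ((sg (sig π ε i) - sg (sig π ε' i)) / 2) +
        (wt T (π i) : ℝ) * ((-sg (sig π ε i) - -sg (sig π ε' i)) / 2) =
        ((wt T i : ℝ) - wt T (π i)) * ((sg (sig π ε i) - sg (sig π ε' i)) / 2) := by ring
    rw [he, abs_mul]
    split_ifs with hs
    · have : |(wt T i : ℝ) - wt T (π i)| ≤ 2 := by
        rw [abs_le]; constructor <;> linarith [hw i, hw (π i)]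
      nlinarith [abs_nonneg ((sg (sig π ε i) - sg (sig π ε' i)) / 2),
        abs_nonneg ((wt T i : ℝ) - wt T (π i))]
    · have : wt T i = wt T (π i) := by
        by_contra hn
        exact hs (mem_sepS.2 (Or.inl hn))
      rw [this]; simp

lemma bs_sum_p7 (σ : V → Bool) (T : Finset (V × Bool)) (κ θ : ℝ) :
    κ * (2 * ∑ e ∈ bs G σ T, sg e.1.2) + θ * (bs G σ T).card =
      ∑ e ∈ bd G T, if σ e.1.1 = e.1.2 ∧ σ e.2.1 = e.2.2 then 2 * κ * sg e.1.2 + θ else 0 := by
  rw [← sum_filter, sum_add_distrib, sum_const, nsmul_eq_mul, ← mul_sum]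
  unfold bs
  ring

theorem lip : LipStmt := by
  intro V _ G D hD π hπ T κ θ hκ h0 h1
  refine ⟨fun i => 2 * D * (if i ∈ sepS π (wt T) then 1 else 0) +
    3 * (betP7 G T i + betP7 G T (π i)), fun i ε ε' hε => ?_, ?_⟩
  · have hσ : ∀ v, v ≠ i → v ≠ π i → sig π ε v = sig π ε' v := by
      intro v a b
      refine sig_congr (hε _ fun h => ?_)
      rcases rep_eq π v with c | c <;> rw [c] at h
      · exact a h
      · exact b (by rw [← h, hπ])
    have e1 := sel_lip_p7 hπ T i ε ε' hσ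
    rw [← sel_sub_p7] at e1
    have e2 : |(∑ e ∈ bd G T, if sig π ε e.1.1 = e.1.2 ∧ sig π ε e.2.1 = e.2.2 then
          2 * κ * sg e.1.2 + θ else 0) -
        ∑ e ∈ bd G T, if sig π ε' e.1.1 = e.1.2 ∧ sig π ε' e.2.1 = e.2.2 then
          2 * κ * sg e.1.2 + θ else 0| ≤ 3 * (betP7 G T i + betP7 G T (π i)) := by
      rw [← sum_sub_distrib, bet_eq_p7, bet_eq_p7, ← sum_add_distrib, mul_sum]
      refine (abs_sum_le_sum_abs _ _).trans (sum_le_sum fun e _ => ?_)
      have n1 := ind_nonneg_p7 e i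
      have n2 := ind_nonneg_p7 e (π i)
      by_cases ht : (e.1.1 = i ∨ e.2.1 = i) ∨ (e.1.1 = π i ∨ e.2.1 = π i)
      · have h3 : 1 ≤ indP7 e i + indP7 e (π i) := by
          rcases ht with ht | ht
          · linarith [one_le_ind_p7 e i ht]
          · linarith [one_le_ind_p7 e (π i) ht]
        have h4 : |2 * κ * sg e.1.2 + θ| ≤ 3 := by
          refine (abs_add_le _ _).trans ?_
          rw [abs_mul, abs_mul, abs_sg, abs_of_nonneg h0, abs_two]
          linarith
        split_ifs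
        · rw [sub_self, abs_zero]; linarith
        · rw [sub_zero]; linarith
        · rw [zero_sub, abs_neg]; linarith
        · rw [sub_self, abs_zero]; linarith
      · simp only [not_or] at ht
        rw [hσ _ ht.1.1 ht.2.1, hσ _ ht.1.2 ht.2.2, sub_self, abs_zero]
        linarith
    rw [← bs_sum_p7, ← bs_sum_p7] at e2
    rw [hsId V G D hD, hsId V G D hD]
    set A := ∑ z ∈ T.filter (fun z => sig π ε z.1 = z.2), sg z.2
    set A' := ∑ z ∈ T.filter (fun z => sig π ε' z.1 = z.2), sg z.2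
    set B := ∑ e ∈ bs G (sig π ε) T, sg e.1.2
    set B' := ∑ e ∈ bs G (sig π ε') T, sg e.1.2
    set n : ℝ := ((bs G (sig π ε) T).card : ℝ)
    set n' : ℝ := ((bs G (sig π ε') T).card : ℝ)
    have he : κ * (D * A - 2 * B) - θ * n - (κ * (D * A' - 2 * B') - θ * n') =
        κ * D * (A - A') - (κ * (2 * B) + θ * n - (κ * (2 * B') + θ * n')) := by ring
    rw [he]
    refine (abs_sub _ _).trans (add_le_add ?_ e2)
    rw [abs_mul, abs_mul, Nat.abs_cast]
    have hD0 : (0 : ℝ) ≤ D := Nat.cast_nonneg _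
    calc |κ| * D * |A - A'| ≤ 1 * D * (2 * (if i ∈ sepS π (wt T) then 1 else 0)) :=
          mul_le_mul (mul_le_mul_of_nonneg_right hκ hD0) e1 (abs_nonneg _) (by positivity)
      _ = _ := by ring
  · have hD0 : (0 : ℝ) ≤ D := Nat.cast_nonneg _
    have hb : ∀ v, 0 ≤ betP7 G T v ∧ betP7 G T v ≤ 2 * D := fun v =>
      ⟨add_nonneg (gam_nonneg_p7 _ _) (gam_nonneg_p7 _ _), by
        unfold betP7; linarith [gam_le_p7 hD T (v, true), gam_le_p7 hD T (v, false)]⟩
    have h2 : ∑ i, betP7 G T (π i) = ∑ i, betP7 G T i :=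
      Equiv.sum_comp (Function.Involutive.toPerm π hπ) (betP7 G T)
    calc _ ≤ ∑ i, (8 * (D : ℝ) ^ 2 * (if i ∈ sepS π (wt T) then 1 else 0) +
          72 * D * (betP7 G T i + betP7 G T (π i))) := by
          refine sum_le_sum fun i _ => ?_
          have a := hb i
          have b := hb (π i)
          beta_reduce
          set x := betP7 G T i + betP7 G T (π i)
          have hx : x ^ 2 ≤ 4 * D * x := by nlinarith
          split_ifs
          · nlinarith [sq_nonneg (2 * (D : ℝ) - 3 * x)]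
          · nlinarith
      _ = 8 * (D : ℝ) ^ 2 * (sepS π (wt T)).card + 288 * D * (bd G T).card := by
          rw [sum_add_distrib, ← mul_sum, ← mul_sum, sum_add_distrib, h2, sum_bet_p7, sum_boole]
          have : univ.filter (fun i => i ∈ sepS π (wt T)) = sepS π (wt T) := by
            ext i; simp only [mem_filter, mem_univ, true_and]
          rw [this]
          ring
      _ ≤ _ := by
          have : (0 : ℝ) ≤ D * (bd G T).card := by positivity
          nlinarith

end Pool.Agent.MP_d20a68_co.Poly
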