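import Pool.Agent.MP_d20a68_co.PBasic

/-! Pairing the vertices along a spanning forest. -/

set_option autoImplicit false
set_option linter.unusedSectionVars false
set_option linter.unusedVariables false
open Finset
open scoped Classical

namespace Pool.Agent.MP_d20a68_co.Poly

variable {V : Type} [Fintype V]

/-- The property of a pairing inside a set closed under the parent map. -/
def GoodPair (par : V → V) (U : Finset V) (π : V → V) : Prop :=
  (∀ u, π (π u) = u) ∧ (∀ u, u ∉ U → π u = u) ∧ (∀ u ∈ U, π u ∈ U) ∧
    ∀ u ∈ U, (π u = u → par u = u) ∧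
      (π u = u ∨ π u = par u ∨ u = par (π u) ∨ par u = par (π u))

lemma goodPair_step (par : V → V) (U : Finset V) (u v : V) (hu : u ∈ U) (hv : v ∈ U)
    (huv : u ≠ v) (h : v = par u ∨ par u = par v) (π : V → V)
    (hπ : GoodPair par ((U.erase u).erase v) π) :
    GoodPair par U fun x => if x = u then v else if x = v then u else π x := by
  obtain ⟨h1, h2, h3, h4⟩ := hπ
  have hu' : π u = u := h2 u (by simp)
  have hv' : π v = v := h2 v (by simp)
  have n1 : ∀ x, x ≠ u → π x ≠ u := fun x hx e => hx (by rw [← h1 x, e, hu'])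
  have n2 : ∀ x, x ≠ v → π x ≠ v := fun x hx e => hx (by rw [← h1 x, e, hv'])
  refine ⟨fun x => ?_, fun x hx => ?_, fun x hx => ?_, fun x hx => ?_⟩
  · by_cases e1 : x = u
    · subst e1
      simp [huv.symm]
    · by_cases e2 : x = v
      · subst e2
        simp [e1]
      · simp [e1, e2, n1 x e1, n2 x e2, h1]
  · have e1 : x ≠ u := fun e => hx (e ▸ hu)
    have e2 : x ≠ v := fun e => hx (e ▸ hv)
    simp only [e1, e2, if_false]
    exact h2 x fun h => hx (mem_of_mem_erase (mem_of_mem_erase h))
  · by_cases e1 : x = u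
    · simp [e1, hv]
    · by_cases e2 : x = v
      · subst e2
        simp [e1, hu]
      · simp only [e1, e2, if_false]
        exact mem_of_mem_erase (mem_of_mem_erase (h3 x (by simp [e1, e2, hx])))
  · by_cases e1 : x = u
    · subst e1
      simp only [if_true]
      refine ⟨fun e => absurd e.symm huv, ?_⟩
      rcases h with h | h
      · exact Or.inr (Or.inl h)
      · exact Or.inr (Or.inr (Or.inr h))
    · by_cases e2 : x = v
      · subst e2
        simp only [e1, if_false, if_true]
        refine ⟨fun e => absurd e huv, ?_⟩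
        rcases h with h | h
        · exact Or.inr (Or.inr (Or.inl h))
        · exact Or.inr (Or.inr (Or.inr h.symm))
      · simp only [e1, e2, if_false]
        exact h4 x (by simp [e1, e2, hx])

lemma exists_goodPair (par : V → V) (rk : V → ℕ)
    (hrk : ∀ v, par v = v ∨ rk v = rk (par v) + 1) (n : ℕ) :
    ∀ U : Finset V, U.card = n → (∀ u ∈ U, par u ∈ U) → ∃ π, GoodPair par U π := by
  induction n using Nat.strong_induction_on with
  | _ n ih =>
    intro U hU hcl
    by_cases hall : ∀ u ∈ U, par u = u
    · exact ⟨id, fun _ => rfl, fun _ _ => rfl, fun _ h => h,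
        fun u hu => ⟨fun _ => hall u hu, Or.inl rfl⟩⟩
    · push Not at hall
      obtain ⟨u0, hu0, hp0⟩ := hall
      obtain ⟨u, hu, hmax⟩ := exists_max_image (U.filter fun w => par w ≠ w) rk
        ⟨u0, mem_filter.2 ⟨hu0, hp0⟩⟩
      obtain ⟨huU, hup⟩ := mem_filter.1 hu
      have hru : rk u = rk (par u) + 1 := (hrk u).resolve_left hup
      have key : ∀ w ∈ U, ∀ z, rk z = rk u → w ≠ z → par w ≠ z := by
        intro w hw z hz hwz e
        have hw' : par w ≠ w := fun e' => hwz (e'.symm.trans e)
        have a1 := hmax w (mem_filter.2 ⟨hw, hw'⟩)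
        have a2 := (hrk w).resolve_left hw'
        rw [e] at a2
        omega
      have fin : ∀ v ∈ U, u ≠ v → (v = par u ∨ par u = par v) →
          (∀ w ∈ U, w ≠ u → w ≠ v → par w ≠ v) → ∃ π, GoodPair par U π := by
        intro v hv huv h hc
        have hlt : ((U.erase u).erase v).card < n := by
          rw [← hU]
          exact lt_of_le_of_lt card_erase_le (card_erase_lt_of_mem huU)
        obtain ⟨π, hπ⟩ := ih _ hlt ((U.erase u).erase v) rfl fun w hw => by
          simp only [mem_erase] at hw ⊢
          exact ⟨hc w hw.2.2 hw.2.1 hw.1, key w hw.2.2 u rfl hw.2.1, hcl w hw.2.2⟩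
        exact ⟨_, goodPair_step par U u v huU hv huv h π hπ⟩
      by_cases hs : ∃ v ∈ U, v ≠ u ∧ par v ≠ v ∧ par v = par u
      · obtain ⟨v, hv, hvu, hvp, hve⟩ := hs
        have hrv : rk v = rk u := by
          have := (hrk v).resolve_left hvp
          rw [hve] at this
          omega
        exact fin v hv hvu.symm (Or.inr hve.symm) fun w hw _ hwv => key w hw v hrv hwv
      · refine fin (par u) (hcl u huU) hup.symm (Or.inl rfl) fun w hw hwu hwp e => ?_
        exact hs ⟨w, hw, hwu, fun e' => hwp (e'.symm.trans e), e⟩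

lemma exists_forest_pair (H : SimpleGraph V) :
    ∃ (par rho : V → V) (rk : V → ℕ), (∀ v, par v = v ∨ rk v = rk (par v) + 1) ∧
      (∀ v, par v ≠ v → H.Adj v (par v)) ∧ (∀ v, par v = v → rho v = v) ∧
      ∀ u v, H.Adj u v → rho u = rho v := by
  let rho : V → V := fun v => (H.connectedComponentMk v).out
  have hadj : ∀ u v, H.Adj u v → rho u = rho v := fun u v h => by
    simp only [rho, SimpleGraph.ConnectedComponent.connectedComponentMk_eq_of_adj h]
  have hreach : ∀ v, H.Reachable v (rho v) := fun v =>
    SimpleGraph.ConnectedComponent.exact (Quot.out_eq (H.connectedComponentMk v)).symm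
  have hex : ∀ v, ∃ p, (p = v ∧ rho v = v) ∨
      (H.Adj v p ∧ H.dist v (rho v) = H.dist p (rho p) + 1) := by
    intro v
    by_cases e : rho v = v
    · exact ⟨v, Or.inl ⟨rfl, e⟩⟩
    · obtain ⟨w, hw⟩ := (hreach v).exists_walk_length_eq_dist
      obtain ⟨p, hp, w', rfl⟩ := w.exists_eq_cons_of_ne (Ne.symm e)
      refine ⟨p, Or.inr ⟨hp, ?_⟩⟩
      rw [← hadj v p hp]
      have a1 := SimpleGraph.dist_le w'
      have a2 := hp.reachable.dist_triangle_left (rho v)
      rw [SimpleGraph.dist_eq_one_iff_adj.2 hp] at a2
      simp only [SimpleGraph.Walk.length_cons] at hw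
      omega
  choose par hpar using hex
  refine ⟨par, rho, fun v => H.dist v (rho v), fun v => ?_, fun v hv => ?_, fun v hv => ?_, hadj⟩
  · rcases hpar v with h | h
    · exact Or.inl h.1
    · exact Or.inr h.2
  · rcases hpar v with h | h
    · exact absurd h.1 hv
    · exact h.1
  · rcases hpar v with h | h
    · exact h.2
    · exact absurd hv h.1.ne'

theorem pair : PairStmt := by
  intro V _ H c hc
  obtain ⟨par, rho, rk, h1, h2, h3, h4⟩ := exists_forest_pair H
  obtain ⟨π, p1, -, -, p4⟩ := exists_goodPair par rk h1 _ univ rfl fun u _ => mem_univ _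
  refine ⟨π, p1, fun a => ?_⟩
  have h5 : ∀ v, rho (par v) = rho v := fun v => by
    by_cases e : par v = v
    · rw [e]
    · exact (h4 _ _ (h2 v e)).symm
  set A : Finset V := univ.filter fun x => a x ≠ a (par x) with hA
  have hAc : A.card ≤ cut H a := by
    refine card_le_card_of_injOn (fun x => (x, par x)) (fun x hx => ?_) fun x _ y _ e =>
      congrArg Prod.fst e
    have hx' : a x ≠ a (par x) := (mem_filter.1 hx).2
    exact mem_coe.2 (mem_filter.2 ⟨mem_univ _, h2 x fun e => hx' (by rw [e]), hx'⟩)
  set B : Finset V := univ.filter fun u =>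
    rho u = u ∧ a u ≠ 0 ∧ ∀ x, rho x = u → a x = a (par x) with hB
  have hsub : sepS π a ⊆ ((A ∪ A.image π) ∪ A.image rho) ∪ B := by
    intro u hu
    have memA : ∀ x, a x ≠ a (par x) → x ∈ A := fun x hx => mem_filter.2 ⟨mem_univ _, hx⟩
    have im : π u ∈ A → u ∈ A.image π := fun h => mem_image.2 ⟨_, h, p1 u⟩
    simp only [mem_union]
    obtain ⟨q1, q2⟩ := p4 u (mem_univ _)
    rcases (mem_filter.1 hu).2 with h | h
    · refine Or.inl (Or.inl ?_)
      rcases q2 with e | e | e | e
      · exact absurd (by rw [e]) h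
      · exact Or.inl (memA u (by rw [← e]; exact h))
      · exact Or.inr (im (memA _ (by rw [← e]; exact h.symm)))
      · by_cases e' : a u = a (par u)
        · exact Or.inr (im (memA _ (by rw [← e, ← e']; exact h.symm)))
        · exact Or.inl (memA u e')
    · have r := h3 u (q1 h.1)
      by_cases e : ∀ x, rho x = u → a x = a (par x)
      · exact Or.inr (mem_filter.2 ⟨mem_univ _, r, h.2, e⟩)
      · push Not at e
        obtain ⟨x, hx, hx'⟩ := e
        exact Or.inl (Or.inr (mem_image.2 ⟨x, memA x hx', hx⟩))
  have hconst : ∀ u ∈ B, ∀ n, ∀ x, rk x = n → rho x = u → a x = a u := by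
    intro u hu n
    obtain ⟨-, -, -, b3⟩ := mem_filter.1 hu
    induction n using Nat.strong_induction_on with
    | _ n ih =>
      intro x hx hr
      rcases h1 x with e | e
      · rw [← hr, h3 x e]
      · rw [b3 x hr]
        exact ih (rk (par x)) (by omega) _ rfl ((h5 x).trans hr)
  have hBc : c * B.card ≤ (univ.filter fun u => a u ≠ 0).card := by
    have e1 : (univ.filter fun x => rho x ∈ B).card =
        ∑ u ∈ B, ((univ.filter fun x => rho x ∈ B).filter fun x => rho x = u).card :=
      card_eq_sum_card_fiberwise fun x hx => (mem_filter.1 hx).2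
    have e2 : c * B.card ≤ (univ.filter fun x => rho x ∈ B).card := by
      rw [e1, mul_comm, ← smul_eq_mul]
      refine card_nsmul_le_sum _ _ _ fun u hu => hc _ ⟨u, ?_⟩ fun x hx y hxy => ?_
      · have := (mem_filter.1 hu).2.1
        simp only [mem_filter, mem_univ, true_and]
        exact ⟨by rw [this]; exact hu, this⟩
      · simp only [mem_filter, mem_univ, true_and] at hx ⊢
        rw [← h4 x y hxy]
        exact hx
    refine e2.trans (card_le_card fun x hx => mem_filter.2 ⟨mem_univ _, ?_⟩)
    have hx' := (mem_filter.1 hx).2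
    rw [hconst _ hx' _ x rfl rfl]
    exact (mem_filter.1 hx').2.2.1
  have hcard : (sepS π a).card ≤ 3 * A.card + B.card := by
    have t1 := card_le_card hsub
    have t2 := card_union_le ((A ∪ A.image π) ∪ A.image rho) B
    have t3 := card_union_le (A ∪ A.image π) (A.image rho)
    have t4 := card_union_le A (A.image π)
    have t5 : (A.image π).card ≤ A.card := card_image_le
    have t6 : (A.image rho).card ≤ A.card := card_image_le
    omega
  calc c * (sepS π a).card ≤ c * (3 * cut H a + B.card) :=
        Nat.mul_le_mul_left _ (by omega)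
    _ = 3 * c * cut H a + c * B.card := by ring
    _ ≤ _ := by omega

end Pool.Agent.MP_d20a68_co.Poly
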