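import Pool.Agent.MP_d20a68_co.PBasic

/-! The means of the main random variables and the choice of the sides. -/

set_option autoImplicit false
set_option linter.unusedSectionVars false
set_option linter.unusedVariables false
open Finset
open scoped Classical

namespace Pool.Agent.MP_d20a68_co.Poly

variable {V : Type} [Fintype V] {G : SimpleGraph V} {D L : ℕ} {π : V → V}

lemma flip_invol_p8 (r : V) (ε : V → Bool) :
    Function.update (Function.update ε r (!ε r)) r (!(Function.update ε r (!ε r)) r) = ε := by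
  funext i
  by_cases h : i = r
  · subst h; simp
  · simp [Function.update_of_ne h]

lemma mean_sg_p8 (π : V → V) (u : V) : mean (fun ε : V → Bool => sg (sig π ε u)) = 0 := by
  refine mean_eq_zero_of_anti (fun ε => Function.update ε (rep π u) (!ε (rep π u)))
    (flip_invol_p8 _) _ fun ε => ?_
  rw [sig_flip (ε := ε) (by simp), sg_not]

lemma mean_sg_sg_p8 {u v : V} (h : rep π u ≠ rep π v) :
    mean (fun ε : V → Bool => sg (sig π ε u) * sg (sig π ε v)) = 0 := by
  refine mean_eq_zero_of_anti (fun ε => Function.update ε (rep π u) (!ε (rep π u)))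
    (flip_invol_p8 _) _ fun ε => ?_
  rw [sig_flip (ε := ε) (by simp), sg_not,
    sig_congr (ε' := ε) (v := v) (by rw [Function.update_of_ne h.symm]), neg_mul]

lemma mean_hv_p8 (π : V → V) (v : V) : mean (fun ε : V → Bool => hv G (sig π ε) v) = 0 := by
  unfold hv
  rw [mean_sum]
  exact sum_eq_zero fun u _ => mean_sg_p8 π u

lemma mean_term_p8 (hπ : ∀ u, π (π u) = u) (v : V) (s : Bool) :
    |mean (fun ε : V → Bool => if sig π ε v = s then hv G (sig π ε) v else 0)| ≤ 1 := by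
  have h1 : (fun ε : V → Bool => if sig π ε v = s then hv G (sig π ε) v else 0) =
      fun ε => (1 / 2) * hv G (sig π ε) v +
        (sg s / 2) * ∑ u ∈ nb G v, sg (sig π ε u) * sg (sig π ε v) := by
    funext ε
    rw [← sum_mul]
    change _ = _ + _ * (hv G (sig π ε) v * _)
    cases s <;> cases sig π ε v <;> simp [sg] <;> ring
  rw [h1, mean_add, mean_mul, mean_mul, mean_hv_p8, mul_zero, zero_add, mean_sum, abs_mul, abs_div,
    abs_sg, abs_two]
  have h2 : |∑ u ∈ nb G v, mean fun ε : V → Bool => sg (sig π ε u) * sg (sig π ε v)| ≤ 1 := by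
    refine (abs_sum_le_sum_abs _ _).trans ?_
    refine (sum_le_sum (g := fun u => if u = π v then (1 : ℝ) else 0) fun u hu => ?_).trans ?_
    · split_ifs with h
      · exact mean_abs_le fun ε => by rw [abs_mul, abs_sg, abs_sg, one_mul]
      · rw [mean_sg_sg_p8, abs_zero]
        intro h'
        rcases eq_of_rep_eq hπ h' with a | a
        · exact (mem_nb.1 hu).ne a.symm
        · exact h a
    · rw [sum_ite_eq']
      split_ifs <;> norm_num
  linarith

lemma mean_edge_p8 (hπ : ∀ u, π (π u) = u) {u v : V} {s t : Bool} (h : G.Adj u v) (hst : s ≠ t) :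
    1 / 4 ≤ mean fun ε : V → Bool => if sig π ε u = s ∧ sig π ε v = t then (1 : ℝ) else 0 := by
  have h1 : (fun ε : V → Bool => if sig π ε u = s ∧ sig π ε v = t then (1 : ℝ) else 0) =
      fun ε => (1 / 4 + (sg s / 4) * sg (sig π ε u)) + ((sg t / 4) * sg (sig π ε v) +
        (-1 / 4) * (sg (sig π ε u) * sg (sig π ε v))) := by
    funext ε
    cases s <;> cases t <;> cases sig π ε u <;> cases sig π ε v <;> simp [sg] at hst ⊢ <;> norm_num
  rw [h1, mean_add, mean_add, mean_add, mean_mul, mean_mul, mean_mul, mean_sg_p8, mean_sg_p8,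
    mean_const]
  have h2 : mean (fun ε : V → Bool => sg (sig π ε u) * sg (sig π ε v)) ≤ 0 := by
    by_cases h' : rep π u = rep π v
    · rcases eq_of_rep_eq hπ h' with a | a
      · exact absurd a h.ne
      · rw [← mean_const (ι := V) (Ω := Bool) 0]
        refine mean_mono fun ε => ?_
        rw [a, sig_pi hπ ε (a ▸ h.ne), sg_not, neg_mul, sg_mul_self]
        norm_num
    · exact (mean_sg_sg_p8 h').le
  linarith

theorem meanS : MeanStmt := by
  intro V _ G π hπ
  refine ⟨fun v => mean_hv_p8 π v, fun T => ⟨?_, ?_⟩⟩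
  · unfold hs
    simp only [sum_filter]
    rw [mean_sum]
    refine (abs_sum_le_sum_abs _ _).trans ?_
    refine (sum_le_card_nsmul _ _ 1 fun z _ => mean_term_p8 hπ z.1 z.2).trans (by simp)
  · unfold bs
    simp only [card_filter]
    push_cast
    rw [mean_sum]
    refine le_trans (le_of_eq ?_) (card_nsmul_le_sum _ _ (1 / 4) fun e he =>
      mean_edge_p8 hπ (mem_bd.1 he).2.2.1 (mem_bd.1 he).2.2.2)
    rw [nsmul_eq_mul]; ring

lemma hv_congr_p8 {σ σ' : V → Bool} {v : V} (h : ∀ u, G.Adj v u → σ u = σ' u) :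
    hv G σ v = hv G σ' v :=
  sum_congr rfl fun u hu => by rw [h u (mem_nb.1 hu)]

lemma hs_congr_p8 {σ σ' : V → Bool} {φ : Finset (V × Bool)}
    (h : ∀ w ∈ φ, ∀ u, Adj2 G w.1 u → σ u = σ' u) :
    hs G σ (hat G φ) = hs G σ' (hat G φ) := by
  unfold hs
  rw [sum_filter, sum_filter]
  refine sum_congr rfl fun z hz => ?_
  obtain ⟨w, hw, a⟩ := mem_hat.1 hz
  rw [h w hw z.1 (Adj0.adj2 (Or.inr a.1.symm)),
    hv_congr_p8 fun u hu => h w hw u ⟨z.1, Or.inr a.1.symm, Or.inr hu⟩]

lemma bs_congr_p8 {σ σ' : V → Bool} {φ : Finset (V × Bool)}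
    (h : ∀ w ∈ φ, ∀ u, Adj2 G w.1 u → σ u = σ' u) :
    bs G σ (hat G φ) = bs G σ' (hat G φ) := by
  unfold bs
  refine filter_congr fun e he => ?_
  obtain ⟨h1, -, h2⟩ := mem_bd.1 he
  obtain ⟨w, hw, a⟩ := mem_hat.1 h1
  rw [h w hw e.1.1 (Adj0.adj2 (Or.inr a.1.symm)),
    h w hw e.2.1 ⟨e.1.1, Or.inr a.1.symm, Or.inr h2.1⟩]

lemma eq_of_rep_p8 (hπ : ∀ u, π (π u) = u) {u i : V} (h : rep π u = i) : u = i ∨ u = π i := by
  rcases rep_eq π u with a | a
  · exact Or.inl (a.symm.trans h)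
  · exact Or.inr (by rw [← h, a, hπ])

lemma tail_hv_p8 (h2 : McDStmt) (hP : Par D L) (hD : ∀ v, dg G v = D) (hπ : ∀ u, π (π u) = u)
    (v : V) {κ : ℝ} (hκ : |κ| ≤ 1) :
    pr (fun ε : V → Bool => (D : ℝ) / (13 * L) ≤ κ * hv G (sig π ε) v) ≤
      Real.exp (-(44 * (L : ℝ) * (1 : ℕ))) := by
  have hD0 : (0 : ℝ) < D := by exact_mod_cast hP.pos
  have hL : (1 : ℝ) ≤ L := by exact_mod_cast hP.one
  have hbig : (10 : ℝ) ^ 8 * L ^ 4 ≤ D := by exact_mod_cast hP.big
  have key := h2 V (fun ε => κ * hv G (sig π ε) v)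
    (fun i => if i ∈ (nb G v).image (rep π) then 4 else 0) (16 * D) (D / (13 * L))
    (by positivity) (by positivity) ?_ ?_
  · rw [mean_mul, mean_hv_p8, mul_zero] at key
    simp only [zero_add] at key
    refine key.trans (Real.exp_le_exp.2 (neg_le_neg ?_))
    rw [le_div_iff₀ (by positivity), div_pow, ← mul_div_assoc, le_div_iff₀ (by positivity)]
    have h1 : (L : ℝ) ^ 3 ≤ L ^ 4 := pow_le_pow_right₀ hL (by norm_num)
    have h3 : (0 : ℝ) ≤ L ^ 3 := by positivity
    push_cast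
    nlinarith
  · intro i ε ε' h
    rw [← mul_sub, abs_mul]
    refine (mul_le_of_le_one_left (abs_nonneg _) hκ).trans ?_
    unfold hv
    rw [← sum_sub_distrib]
    refine (abs_sum_le_sum_abs _ _).trans ?_
    have h0 : ∀ u, rep π u ≠ i → |sg (sig π ε u) - sg (sig π ε' u)| = 0 := fun u hu => by
      rw [sig_congr (h _ hu), sub_self, abs_zero]
    split_ifs with hi
    · refine (sum_le_sum (g := fun u => (if u = i then (2 : ℝ) else 0) +
        if u = π i then 2 else 0) fun u _ => ?_).trans ?_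
      · by_cases hu : rep π u = i
        · have h3 : |sg (sig π ε u) - sg (sig π ε' u)| ≤ 2 :=
            (abs_sub _ _).trans (by rw [abs_sg, abs_sg]; norm_num)
          refine h3.trans ?_
          rcases eq_of_rep_p8 hπ hu with a | a
          · rw [if_pos a]; split_ifs <;> norm_num
          · rw [if_pos a]; split_ifs <;> norm_num
        · rw [h0 u hu]; split_ifs <;> norm_num
      · rw [sum_add_distrib, sum_ite_eq', sum_ite_eq']
        split_ifs <;> norm_num
    · exact le_of_eq (sum_eq_zero fun u hu => h0 u fun a => hi (mem_image.2 ⟨u, hu, a⟩))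
  · have h1 : ∀ i, (if i ∈ (nb G v).image (rep π) then (4 : ℝ) else 0) ^ 2 =
        if i ∈ (nb G v).image (rep π) then 16 else 0 := fun i => by split_ifs <;> norm_num
    simp only [h1]
    rw [sum_ite_mem, univ_inter, sum_const, nsmul_eq_mul, mul_comm]
    have h3 : ((nb G v).image (rep π)).card ≤ D := card_image_le.trans (hD v).le
    have h4 : (((nb G v).image (rep π)).card : ℝ) ≤ D := by exact_mod_cast h3
    linarith

lemma num_p8 {L D E j : ℝ} (hL : 1 ≤ L) (hD : 0 < D) (hE : 0 ≤ E) (hj : 0 ≤ j) :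
    44 * L * j * (35000 * L * (D * E + D ^ 2 * j)) ≤
      2 * ((3 * 10 ^ 7 * L ^ 3 - 1) * D * j + 1 / (13 * L) * E / 4) ^ 2 := by
  have hL3 : 1 ≤ L ^ 3 := one_le_pow₀ hL
  have hL2 : L ^ 2 ≤ L ^ 3 := pow_le_pow_right₀ hL (by norm_num)
  have hL2' : 1 ≤ L ^ 2 := one_le_pow₀ hL
  set A := 3 * 10 ^ 7 * L ^ 3 - 1 with hA
  set θ := 1 / (13 * L) with hθ
  have hθ0 : 0 ≤ θ := by positivity
  have h1 : 1540000 * L ^ 2 ≤ A * θ := by
    rw [hθ, mul_one_div, le_div_iff₀ (by positivity)]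
    nlinarith
  have h2 : 1540000 * L ^ 2 ≤ 2 * A ^ 2 := by
    have : 1540000 * L ^ 2 ≤ A := by linarith
    nlinarith
  have h3 : 0 ≤ D * E * j := by positivity
  have h4 : 0 ≤ D ^ 2 * j ^ 2 := by positivity
  have h5 := mul_le_mul_of_nonneg_right h1 h3
  have h6 := mul_le_mul_of_nonneg_right h2 h4
  nlinarith [sq_nonneg (θ * E)]

lemma tail_hs_p8 (h2 : McDStmt) (h3 : LipStmt) (h4 : MeanStmt) (hP : Par D L)
    (hD : ∀ v, dg G v = D) (hπ : ∀ u, π (π u) = u) {φ : Finset (V × Bool)} (hφ : φ.Nonempty)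
    (hsep : ((sepS π (wt (hat G φ))).card : ℝ) ≤
      4224 * L * (bd G (hat G φ)).card / D + 266 * L * φ.card) {κ : ℝ} (hκ : |κ| ≤ 1) :
    pr (fun ε : V → Bool => 3 * 10 ^ 7 * (L : ℝ) ^ 3 * D * φ.card ≤
      κ * hs G (sig π ε) (hat G φ) - 1 / (13 * L) * (bs G (sig π ε) (hat G φ)).card) ≤
      Real.exp (-(44 * (L : ℝ) * φ.card)) := by
  have hD0 : (0 : ℝ) < D := by exact_mod_cast hP.pos
  have hL : (1 : ℝ) ≤ L := by exact_mod_cast hP.one
  have hj : (1 : ℝ) ≤ φ.card := by exact_mod_cast hφ.card_pos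
  have hL3 : (1 : ℝ) ≤ L ^ 3 := one_le_pow₀ hL
  have hθ : (0 : ℝ) ≤ 1 / (13 * L) := by positivity
  obtain ⟨c, hc1, hc2⟩ := h3 V G D hD π hπ (hat G φ) κ (1 / (13 * L)) hκ hθ
    (by rw [div_le_one (by positivity)]; linarith)
  obtain ⟨m1, m2⟩ := (h4 V G π hπ).2 (hat G φ)
  have hT : ((hat G φ).card : ℝ) ≤ D * φ.card := by
    exact_mod_cast card_hat (fun v => (hD v).le) φ
  set E : ℝ := ((bd G (hat G φ)).card : ℝ) with hE
  set j : ℝ := (φ.card : ℝ)
  have hE0 : 0 ≤ E := Nat.cast_nonneg _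
  have hQ : (0 : ℝ) < 35000 * L * (D * E + D ^ 2 * j) := by positivity
  have key := h2 V _ c (35000 * L * (D * E + D ^ 2 * j))
    ((3 * 10 ^ 7 * L ^ 3 - 1) * D * j + 1 / (13 * L) * E / 4) hQ
    (add_nonneg (mul_nonneg (mul_nonneg (by linarith) hD0.le) (by linarith)) (by positivity))
    hc1 (hc2.trans ?_)
  · refine ((pr_mono fun ε h => le_trans ?_ h).trans key).trans
      (Real.exp_le_exp.2 (neg_le_neg ?_))
    · rw [mean_sub, mean_mul, mean_mul]
      have a1 : κ * mean (fun ε : V → Bool => hs G (sig π ε) (hat G φ)) ≤ D * j := by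
        refine (le_abs_self _).trans ?_
        rw [abs_mul]
        exact (mul_le_of_le_one_left (abs_nonneg _) hκ).trans (m1.trans hT)
      have a2 := mul_le_mul_of_nonneg_left m2 hθ
      linarith
    · rw [le_div_iff₀ hQ]
      exact num_p8 hL hD0 hE0 (by linarith)
  · have a1 := mul_le_mul_of_nonneg_left hsep (show (0 : ℝ) ≤ 8 * D ^ 2 by positivity)
    have a2 : 8 * (D : ℝ) ^ 2 * (4224 * L * E / D + 266 * L * j) =
        33792 * (L * (D * E)) + 2128 * (L * (D ^ 2 * j)) := by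
      field_simp; ring
    have a3 : (D : ℝ) * E ≤ L * (D * E) := le_mul_of_one_le_left (by positivity) hL
    have a4 : (0 : ℝ) ≤ L * (D ^ 2 * j) := by positivity
    have a5 : (0 : ℝ) ≤ D * E := by positivity
    nlinarith

/-- The coordinates that are seen from a lift. -/
def NearP8 (G : SimpleGraph V) (π : V → V) (z : V × Bool) (i : V) : Prop :=
  ∃ u, Adj2 G z.1 u ∧ rep π u = i

theorem sign (h1 : ClusterStmt) (h2 : McDStmt) (h3 : LipStmt) (h4 : MeanStmt) : SignStmt := by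
  intro V _ G D L hP hD π hπ hsep
  have hD' : ∀ v, dg G v ≤ D := fun v => (hD v).le
  have hsing : ∀ (φ : Finset (V × Bool)) (κ : ℝ), |κ| ≤ 1 →
      pr (fun ε : V → Bool => ∃ z, φ = {z} ∧ (D : ℝ) / (13 * L) ≤ κ * hv G (sig π ε) z.1) ≤
        Real.exp (-(44 * (L : ℝ) * φ.card)) := by
    intro φ κ hκ
    by_cases h : ∃ z, φ = {z}
    · obtain ⟨z, rfl⟩ := h
      rw [card_singleton]
      refine (pr_mono ?_).trans (tail_hv_p8 h2 hP hD hπ z.1 hκ)
      rintro ε ⟨w, hw, h⟩
      rwa [singleton_injective hw]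
    · rw [pr_false fun ε ⟨z, hz, _⟩ => h ⟨z, hz⟩]
      exact (Real.exp_pos _).le
  obtain ⟨ε, hε⟩ := h1 (V × Bool) V Bool (Rel G) (NearP8 G π)
    (fun φ ε =>
      ((3 * 10 ^ 7 * (L : ℝ) ^ 3 * D * φ.card ≤
        1 * hs G (sig π ε) (hat G φ) - 1 / (13 * L) * (bs G (sig π ε) (hat G φ)).card) ∨
      (3 * 10 ^ 7 * (L : ℝ) ^ 3 * D * φ.card ≤
        -1 * hs G (sig π ε) (hat G φ) - 1 / (13 * L) * (bs G (sig π ε) (hat G φ)).card)) ∨
      ((∃ z, φ = {z} ∧ (D : ℝ) / (13 * L) ≤ 1 * hv G (sig π ε) z.1) ∨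
      (∃ z, φ = {z} ∧ (D : ℝ) / (13 * L) ≤ -1 * hv G (sig π ε) z.1)))
    (2 ^ (3 * L + 4)) (two_le_M L) (fun z w h => h.symm)
    (fun z => (card_rel hD' z).trans hP.cube)
    (fun z => by
      refine le_trans ?_ hP.sq
      calc _ ≤ ((univ.filter fun u => Adj2 G z.1 u).image (rep π)).card :=
            card_le_card fun i hi => by
              obtain ⟨u, a, b⟩ := (mem_filter.1 hi).2
              exact mem_image.2 ⟨u, mem_filter.2 ⟨mem_univ _, a⟩, b⟩
        _ ≤ (D + 1) ^ 2 := card_image_le.trans (card_adj2 hD' z.1)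
        _ ≤ _ := by omega)
    (fun i => by
      refine le_trans ?_ hP.sq
      refine (card_lift (fun v => Adj2 G i v ∨ Adj2 G (π i) v) _ ?_).trans ?_
      · rintro z ⟨u, a, b⟩
        rcases eq_of_rep_p8 hπ b with c | c
        · exact Or.inl (c ▸ a.symm)
        · exact Or.inr (c ▸ a.symm)
      · have a1 := card_adj2 hD' i
        have a2 := card_adj2 hD' (π i)
        have a3 : (univ.filter fun v => Adj2 G i v ∨ Adj2 G (π i) v).card ≤
            (univ.filter fun v => Adj2 G i v).card +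
              (univ.filter fun v => Adj2 G (π i) v).card := by
          refine le_trans (card_le_card fun v hv => ?_) (card_union_le _ _)
          rw [mem_union, mem_filter, mem_filter]
          exact (mem_filter.1 hv).2.imp (fun h => ⟨mem_univ _, h⟩) fun h => ⟨mem_univ _, h⟩
        omega)
    (fun φ _ ε ε' h hb => by
      have h' : ∀ w ∈ φ, ∀ u, Adj2 G w.1 u → sig π ε u = sig π ε' u :=
        fun w hw u hu => sig_congr (h _ ⟨w, hw, u, hu, rfl⟩)
      have h'' : ∀ z, φ = {z} → hv G (sig π ε) z.1 = hv G (sig π ε') z.1 := fun z hz =>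
        hv_congr_p8 fun u hu => h' z (hz ▸ mem_singleton_self z) u (Adj0.adj2 (Or.inr hu))
      beta_reduce at hb ⊢
      rw [← hs_congr_p8 h', ← bs_congr_p8 h']
      refine hb.imp_right fun hb => hb.imp ?_ ?_ <;>
        exact fun ⟨z, hz, a⟩ => ⟨z, hz, by rwa [← h'' z hz]⟩)
    (fun φ hφ => by
      refine le_trans ?_ (four_exp_le hP.one hφ.1.card_pos)
      refine (pr_or_le _ _).trans ((add_le_add (pr_or_le _ _) (pr_or_le _ _)).trans ?_)
      have a1 := tail_hs_p8 h2 h3 h4 hP hD hπ hφ.1 (hsep φ hφ) (κ := 1) (by norm_num)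
      have a2 := tail_hs_p8 h2 h3 h4 hP hD hπ hφ.1 (hsep φ hφ) (κ := -1) (by norm_num)
      have a3 := hsing φ 1 (by norm_num)
      have a4 := hsing φ (-1) (by norm_num)
      linarith)
  refine ⟨sig π ε, fun v => ?_, fun φ hφ => ?_⟩
  · have h := hε {(v, true)} (conn_singleton _ _)
    simp only [not_or] at h
    have a1 := not_le.1 fun a => h.2.1 ⟨(v, true), rfl, a⟩
    have a2 := not_le.1 fun a => h.2.2 ⟨(v, true), rfl, a⟩
    rw [abs_le]
    constructor <;> linarith
  · have h := hε φ hφ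
    simp only [not_or] at h
    have a1 := not_le.1 h.1.1
    have a2 := not_le.1 h.1.2
    rw [abs_le, div_eq_mul_one_div, mul_comm ((bs G (sig π ε) (hat G φ)).card : ℝ)]
    constructor <;> linarith

end Pool.Agent.MP_d20a68_co.Poly
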