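import Pool.Agent.MP_d20a68_co.PBasic

/-! A sparse subgraph with large components that samples the boundaries. -/

set_option autoImplicit false
set_option linter.unusedSectionVars false
set_option linter.unusedVariables false
open Finset
open scoped Classical

namespace Pool.Agent.MP_d20a68_co.Poly

variable {V : Type} [Fintype V] {G : SimpleGraph V} {D L : ℕ}

/-- The ordered edges on which `a` changes. -/
noncomputable def chgB (G : SimpleGraph V) (a : V → ℕ) : Finset (V × V) :=
  univ.filter fun e => G.Adj e.1 e.2 ∧ a e.1 ≠ a e.2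

/-- The ordered edges leaving `C`. -/
noncomputable def outB (G : SimpleGraph V) (C : Finset V) : Finset (V × V) :=
  univ.filter fun e => G.Adj e.1 e.2 ∧ e.1 ∈ C ∧ e.2 ∉ C

lemma mem_chgB {a : V → ℕ} {e : V × V} : e ∈ chgB G a ↔ G.Adj e.1 e.2 ∧ a e.1 ≠ a e.2 := by
  simp [chgB]

lemma mem_outB {C : Finset V} {e : V × V} :
    e ∈ outB G C ↔ G.Adj e.1 e.2 ∧ e.1 ∈ C ∧ e.2 ∉ C := by simp [outB]

lemma card_chgB (T : Finset (V × Bool)) : (chgB G (wt T)).card ≤ 2 * (bd G T).card := by
  calc _ ≤ ((bd G T).image (fun e => (e.1.1, e.2.1)) ∪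
        (bd G T).image (fun e => (e.2.1, e.1.1))).card := card_le_card fun e he => by
          obtain ⟨h1, h2⟩ := mem_chgB.1 he
          by_contra hn
          rw [mem_union, not_or] at hn
          have a : ∀ s, (e.1, s) ∈ T → (e.2, !s) ∈ T := fun s h => by
            by_contra h'
            exact hn.1 (mem_image.2 ⟨((e.1, s), (e.2, !s)), mem_bd.2 ⟨h, h', h1, by simp⟩, rfl⟩)
          have b : ∀ s, (e.2, s) ∈ T → (e.1, !s) ∈ T := fun s h => by
            by_contra h'
            exact hn.2 (mem_image.2 ⟨((e.2, s), (e.1, !s)),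
              mem_bd.2 ⟨h, h', h1.symm, by simp⟩, rfl⟩)
          have c1 : (e.1, true) ∈ T ↔ (e.2, false) ∈ T := ⟨a true, b false⟩
          have c2 : (e.1, false) ∈ T ↔ (e.2, true) ∈ T := ⟨a false, b true⟩
          apply h2
          unfold wt
          simp only [c1, c2]
          exact add_comm _ _
    _ ≤ _ := (card_union_le _ _).trans (Nat.add_le_add card_image_le card_image_le)
    _ = _ := (two_mul _).symm

lemma card_outB (hD : ∀ v, dg G v = D) (C : Finset V) (hC : C.card ≤ D / 2) :
    C.card * D ≤ 2 * (outB G C).card := by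
  have h1 : ∀ u ∈ C, D ≤ 2 * ((outB G C).filter fun e => e.1 = u).card := fun u hu => by
    have h2 : (nb G u).card ≤ C.card + ((outB G C).filter fun e => e.1 = u).card := by
      refine le_trans (card_le_card fun v hv => ?_) ((card_union_le C
        (((outB G C).filter fun e => e.1 = u).image Prod.snd)).trans
        (Nat.add_le_add_left card_image_le _))
      by_cases h : v ∈ C
      · exact mem_union_left _ h
      · exact mem_union_right _ (mem_image.2 ⟨(u, v), mem_filter.2
          ⟨mem_outB.2 ⟨mem_nb.1 hv, hu, h⟩, rfl⟩, rfl⟩)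
    have := hD u
    unfold dg at this
    omega
  have h3 : (outB G C).card = ∑ u ∈ C, ((outB G C).filter fun e => e.1 = u).card :=
    card_eq_sum_card_fiberwise fun e he => mem_coe.2 (mem_outB.1 (mem_coe.1 he)).2.1
  rw [h3, mul_sum, ← smul_eq_mul, ← sum_const]
  exact sum_le_sum h1

/-- The variables near a lift. -/
def NearB (G : SimpleGraph V) (z : V × Bool) (e : V × V) : Prop := G.Adj e.1 e.2 ∧ Adj2 G z.1 e.1

lemma cut_eqB (H : SimpleGraph V) (a : V → ℕ) : cut H a = (chgB H a).card := rfl

theorem sparse (h1 : ClusterStmt) (h2 : SelStmt) : SparseStmt := by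
  intro V _ G D L hP hD
  have hD0 := hP.pos
  have hD0' : (0 : ℝ) < D := by exact_mod_cast hD0
  have hD' : ∀ v, dg G v ≤ D := fun v => (hD v).le
  have ht : 176 * L ≤ D := by
    have a := hP.big
    have b : L ≤ L ^ 4 := Nat.le_self_pow (by norm_num) L
    omega
  have : Nonempty (Fin D) := ⟨⟨0, hD0⟩⟩
  obtain ⟨ω, hω⟩ := h1 (V × Bool) (V × V) (Fin D) (Rel G) (NearB G)
    (fun φ ω => (2 * ((176 * L : ℕ) : ℝ) * (chgB G (wt (hat G φ))).card / D + 44 * L * φ.card ≤
        (((chgB G (wt (hat G φ))).filter fun i => (ω i).val < 176 * L).card : ℝ)) ∨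
      ((φ.image Prod.fst).card ≤ D / 2 ∧ ∀ i ∈ outB G (φ.image Prod.fst), ¬ (ω i).val < 176 * L))
    (2 ^ (3 * L + 4)) (two_le_M L) (fun z w h => h.symm)
    (fun z => (card_rel hD' z).trans hP.cube)
    (fun z => by
      calc _ ≤ ((univ.filter fun u => Adj2 G z.1 u).biUnion fun u =>
            (nb G u).image fun v => (u, v)).card := card_le_card fun e he => by
              obtain ⟨a, b⟩ := (mem_filter.1 he).2
              exact mem_biUnion.2 ⟨e.1, mem_filter.2 ⟨mem_univ _, b⟩,
                mem_image.2 ⟨e.2, mem_nb.2 a, rfl⟩⟩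
        _ ≤ _ := card_biUnion_le_card_mul _ _ D fun u _ => card_image_le.trans (hD' u)
        _ ≤ (D + 1) ^ 2 * D := Nat.mul_le_mul_right _ (card_adj2 hD' z.1)
        _ ≤ 2 * (D + 1) ^ 3 := by nlinarith [Nat.zero_le ((D + 1) ^ 2)]
        _ ≤ _ := hP.cube)
    (fun e => by
      refine (card_lift (fun v => Adj2 G e.1 v) (fun z => NearB G z e)
        fun z h => h.2.symm).trans ?_
      have := card_adj2 hD' e.1
      have := hP.sq
      omega)
    (fun φ _ => by
      refine Dep.or (fun ω ω' h hω => hω.trans_eq ?_) fun ω ω' h hω => ⟨hω.1, fun i hi => ?_⟩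
      · congr 2
        refine filter_congr fun e he => ?_
        obtain ⟨a, b⟩ := mem_chgB.1 he
        rw [h e ?_]
        by_cases c : wt (hat G φ) e.1 = 0
        · obtain ⟨s, hs⟩ := wt_ne_zero.1 (fun h => b (c.trans h.symm) : wt (hat G φ) e.2 ≠ 0)
          obtain ⟨w, w1, w2⟩ := mem_hat.1 hs
          exact ⟨w, w1, a, e.2, Or.inr w2.1.symm, Or.inr a.symm⟩
        · obtain ⟨s, hs⟩ := wt_ne_zero.1 c
          obtain ⟨w, w1, w2⟩ := mem_hat.1 hs
          exact ⟨w, w1, a, Adj0.adj2 (Or.inr w2.1.symm)⟩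
      · obtain ⟨a, b, c⟩ := mem_outB.1 hi
        obtain ⟨z, z1, z2⟩ := mem_image.1 b
        rw [← h i ⟨z, z1, a, Adj0.adj2 (Or.inl z2)⟩]
        exact hω.2 i hi)
    (fun φ hφ => by
      have hj : 1 ≤ φ.card := card_pos.2 hφ.1
      refine (pr_or_le _ _).trans (le_trans ?_ (four_exp_le hP.one hj))
      have a := (h2 (V × V) D (176 * L) hD0 ht (chgB G (wt (hat G φ)))).2 (44 * L * φ.card)
      have b : pr (fun ω : V × V → Fin D => (φ.image Prod.fst).card ≤ D / 2 ∧
          ∀ i ∈ outB G (φ.image Prod.fst), ¬ (ω i).val < 176 * L) ≤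
          Real.exp (-(44 * (L : ℝ) * φ.card)) := by
        by_cases hC : (φ.image Prod.fst).card ≤ D / 2
        · refine (pr_mono fun ω h => h.2).trans
            (((h2 (V × V) D (176 * L) hD0 ht _).1).trans (Real.exp_le_exp.2 ?_))
          have c1 := card_outB hD _ hC
          have c2 : φ.card ≤ 2 * (φ.image Prod.fst).card := by
            refine card_le_mul_card_image φ 2 fun v _ => ?_
            refine le_trans (card_le_card (t := {(v, true), (v, false)}) fun z hz => ?_) card_le_two
            obtain ⟨u, s⟩ := z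
            have : u = v := (mem_filter.1 hz).2
            cases s <;> simp [this]
          have c3 : φ.card * D ≤ 4 * (outB G (φ.image Prod.fst)).card := by nlinarith
          have c4 : (φ.card : ℝ) * D ≤ 4 * (outB G (φ.image Prod.fst)).card := by exact_mod_cast c3
          rw [neg_le_neg_iff, le_div_iff₀ hD0']
          push_cast
          nlinarith [Nat.cast_nonneg (α := ℝ) L]
        · rw [pr_false fun ω h => hC h.1]
          exact (Real.exp_pos _).le
      linarith [Real.exp_pos (-(44 * (L : ℝ) * φ.card))])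
  let H : SimpleGraph V :=
    { Adj := fun u v => G.Adj u v ∧ ((ω (u, v)).val < 176 * L ∨ (ω (v, u)).val < 176 * L)
      symm := ⟨fun _ _ h => ⟨h.1.symm, h.2.symm⟩⟩
      loopless := ⟨fun _ h => h.1.ne rfl⟩ }
  refine ⟨H, fun C hC hcl => ?_, fun φ hφ => ?_⟩
  · by_contra hn
    have key := conn_induction (Rel G) (fun φ => (φ.image Prod.fst).card ≤ D / 2 →
      (∀ u ∈ φ.image Prod.fst, ∀ v, H.Adj u v → v ∈ φ.image Prod.fst) → φ = ∅)
      (fun _ _ => rfl) (fun φ hφ a b => (hω φ hφ (Or.inr ⟨a, fun i hi hs => by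
        obtain ⟨c, d, e⟩ := mem_outB.1 hi
        exact e (b _ d _ ⟨c, Or.inl hs⟩)⟩)).elim)
      (fun φ ψ χ a _ b _ c d _ e f => by
        have hsub : φ ⊆ χ := fun z hz => (a z).2 (Or.inl hz)
        refine absurd (d ((card_le_card (image_subset_image hsub)).trans e) fun u hu v huv => ?_)
          b.ne_empty
        obtain ⟨w, w1, w2⟩ := mem_image.1 (f u (image_subset_image hsub hu) v huv)
        obtain ⟨z, z1, z2⟩ := mem_image.1 hu
        rcases (a w).1 w1 with w3 | w3
        · exact mem_image.2 ⟨w, w3, w2⟩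
        · exact (c z z1 w w3 (rel_of_adj2 (Adj0.adj2 (Or.inr (by rw [z2, w2]; exact huv.1))))).elim)
      (C.image fun v => (v, true))
    have e : (C.image fun v => (v, true)).image Prod.fst = C := by
      rw [image_image]
      exact image_id
    rw [e] at key
    exact (hC.image _).ne_empty (key (by omega) hcl)
  · have a := not_le.1 fun h => hω φ hφ (Or.inl h)
    have b : cut H (wt (hat G φ)) ≤
        2 * ((chgB G (wt (hat G φ))).filter fun i => (ω i).val < 176 * L).card := by
      rw [two_mul, cut_eqB]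
      refine le_trans (card_le_card fun e he => ?_) ((card_union_le
        ((chgB G (wt (hat G φ))).filter fun i => (ω i).val < 176 * L)
        (((chgB G (wt (hat G φ))).filter fun i => (ω i).val < 176 * L).image Prod.swap)).trans
        (Nat.add_le_add_left card_image_le _))
      obtain ⟨⟨c, d⟩, f⟩ := mem_chgB.1 he
      rcases d with d | d
      · exact mem_union_left _ (mem_filter.2 ⟨mem_chgB.2 ⟨c, f⟩, d⟩)
      · exact mem_union_right _ (mem_image.2 ⟨e.swap,
          mem_filter.2 ⟨mem_chgB.2 ⟨c.symm, f.symm⟩, d⟩, rfl⟩)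
    have b' : (cut H (wt (hat G φ)) : ℝ) ≤
        2 * ((chgB G (wt (hat G φ))).filter fun i => (ω i).val < 176 * L).card := by
      exact_mod_cast b
    have c : ((chgB G (wt (hat G φ))).card : ℝ) ≤ 2 * (bd G (hat G φ)).card := by
      exact_mod_cast card_chgB (hat G φ)
    have d : 2 * ((176 * L : ℕ) : ℝ) * (chgB G (wt (hat G φ))).card / D ≤
        704 * L * (bd G (hat G φ)).card / D := by
      refine div_le_div_of_nonneg_right ?_ hD0'.le
      push_cast
      nlinarith [Nat.cast_nonneg (α := ℝ) L]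
    have e : (1408 : ℝ) * L * (bd G (hat G φ)).card / D =
        2 * (704 * L * (bd G (hat G φ)).card / D) := by ring
    rw [e]
    linarith

end Pool.Agent.MP_d20a68_co.Poly
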